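import Pool.Agent.Run7.h935.Final

/-!
# Hertling's variance inequality fails for some isolated hypersurface singularity

The singularity is `f = x³y + xy³ + z⁴w + zw⁴ + xyzw` in four variables.  It has `132` spectral
numbers, `ν(f) = 2` and the sum of the squares of the normalized spectral numbers is
`22 + 1/180 > 22 = n ν / 12`.
-/

namespace Pool.Agent.Results.MP_a6db71_ag.VarianceCounterexample

open Run7.h935

/-- There is an isolated hypersurface singularity `f` in four variables, which has a normalized
spectrum `α_0 ≤ … ≤ α_n`, and every normalized spectrum of `f` has variance greater than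
`(α_n - α_0) / 12`. -/
theorem result : ∃ f : MvPolynomial (Fin (2 + 2)) ℂ, IsIsolatedSingularity f ∧
    (∃ (n : ℕ) (α : Fin (n + 1) → ℚ),
      IsNormalizedSpectrum (f : MvPowerSeries (Fin (2 + 2)) ℂ) α) ∧
    ∀ (n : ℕ) (α : Fin (n + 1) → ℚ),
      IsNormalizedSpectrum (f : MvPowerSeries (Fin (2 + 2)) ℂ) α →
      (α (Fin.last n) - α 0) / 12 < (∑ j, α j ^ 2) / (n + 1) := by
  refine ⟨NF.fP, NF.isolated_fP, ⟨131, NF.alF, ?_⟩, fun n α h => ?_⟩
  · rw [NF.coe_fP]; exact NF.isNormalizedSpectrum_alF
  · rw [NF.coe_fP] at h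
    obtain ⟨h1, h2, h3⟩ := NF.normalized_values α h
    have h4 : (n : ℚ) + 1 = 132 := by exact_mod_cast h1
    rw [h2, h3, h4]
    norm_num

end Pool.Agent.Results.MP_a6db71_ag.VarianceCounterexample
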